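import Pool.Agent.Y627.PT.Main

set_option autoImplicit false

/-!
# Combinations of functions in `X ^ (e / 24) K` which are algebraic over `F_2(X)` are polynomials
-/

namespace Pool.Agent.Q36.AU

open PowerSeries Pool.Agent.TH693.PP Pool.Agent.TH693.QQ Pool.Agent.H397R2.PP Pool.Agent.Y517.PT
open Pool.Agent.Y627.PT

section abs

variable {M : Type} [Field M]

/-- a polynomial with infinitely many values in a subfield at points of the subfield -/
theorem coeff_mem_of_values (K0 : Subfield M) : ∀ (n : ℕ) (Q : Polynomial M), Q.natDegree ≤ n →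
    (∀ s : Finset M, ∃ t ∈ K0, t ∉ s ∧ Q.eval t ∈ K0) → ∀ i, Q.coeff i ∈ K0 := by
  intro n
  induction n with
  | zero =>
    intro Q hQ h i
    obtain ⟨t, ht, -, h1⟩ := h ∅
    have hc : Q = Polynomial.C (Q.coeff 0) := Polynomial.eq_C_of_natDegree_le_zero hQ
    rw [hc] at h1 ⊢
    rw [Polynomial.eval_C] at h1
    rw [Polynomial.coeff_C]
    split_ifs
    · exact h1
    · exact K0.zero_mem
  | succ n ih =>
    intro Q hQ h i
    obtain ⟨t0, ht0, -, h0⟩ := h ∅
    obtain ⟨Q1, hQ1⟩ : (Polynomial.X - Polynomial.C t0) ∣ Q - Polynomial.C (Q.eval t0) := by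
      rw [Polynomial.dvd_iff_isRoot, Polynomial.IsRoot.def, Polynomial.eval_sub, Polynomial.eval_C,
        sub_self]
    have hdeg : Q1.natDegree ≤ n := by
      by_cases h2 : Q1 = 0
      · rw [h2, Polynomial.natDegree_zero]; exact Nat.zero_le _
      · have h3 : (Q - Polynomial.C (Q.eval t0)).natDegree ≤ n + 1 :=
          (Polynomial.natDegree_sub_C).le.trans hQ
        rw [hQ1, Polynomial.natDegree_mul (Polynomial.X_sub_C_ne_zero t0) h2,
          Polynomial.natDegree_X_sub_C] at h3
        omega
    have h1 := ih Q1 hdeg (fun s => by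
      classical
      obtain ⟨t, ht, hts, h2⟩ := h (insert t0 s)
      rw [Finset.mem_insert, not_or] at hts
      refine ⟨t, ht, hts.2, ?_⟩
      have h3 := congrArg (Polynomial.eval t) hQ1
      rw [Polynomial.eval_sub, Polynomial.eval_C, Polynomial.eval_mul, Polynomial.eval_sub,
        Polynomial.eval_X, Polynomial.eval_C] at h3
      have h4 : Q1.eval t = (Q.eval t - Q.eval t0) / (t - t0) := by
        rw [h3, mul_div_cancel_left₀ _ (sub_ne_zero.2 hts.1)]
      rw [h4]
      exact K0.div_mem (K0.sub_mem h2 h0) (K0.sub_mem ht ht0))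
    have h2 : Q = (Polynomial.X - Polynomial.C t0) * Q1 + Polynomial.C (Q.eval t0) := by
      rw [← hQ1]; ring
    rw [h2, Polynomial.coeff_add, sub_mul, Polynomial.coeff_sub, Polynomial.coeff_C_mul]
    refine K0.add_mem (K0.sub_mem ?_ (K0.mul_mem ht0 (h1 i))) ?_
    · cases i with
      | zero => rw [Polynomial.coeff_X_mul_zero]; exact K0.zero_mem
      | succ i => rw [Polynomial.coeff_X_mul]; exact h1 i
    · rw [Polynomial.coeff_C]
      split_ifs
      · exact h0
      · exact K0.zero_mem

end abs

section abs2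

variable {k M : Type} [Field k] [Field M] [Algebra k M]

/-- the elements algebraic over `k` -/
noncomputable def K0 (k M : Type) [Field k] [Field M] [Algebra k M] : Subfield M :=
  (algebraicClosure k M).toSubfield

theorem mem_K0 {y : M} : y ∈ K0 k M ↔ IsAlgebraic k y := by
  change y ∈ algebraicClosure k M ↔ _
  exact mem_algebraicClosure_iff

theorem mem_cl_empty {y : M} : y ∈ QE2.cl k (∅ : Set M) ↔ IsAlgebraic k y := by
  rw [QE2.mem_cl, Algebra.adjoin_empty]
  constructor
  · intro h
    have : Algebra.IsAlgebraic k (⊥ : Subalgebra k M) := by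
      constructor
      intro x
      obtain ⟨a, ha⟩ := Algebra.mem_bot.1 x.2
      have : x = algebraMap k (⊥ : Subalgebra k M) a := Subtype.ext ha.symm
      rw [this]
      exact isAlgebraic_algebraMap a
    exact h.restrictScalars k
  · intro h
    exact h.extendScalars (algebraMap k (⊥ : Subalgebra k M)).injective

end abs2


section abs3

variable {k M : Type} [Field k] [Field M] [Algebra k M]

theorem K0_infinite [IsAlgClosed M] (s : Finset M) : ∃ t ∈ K0 k M, t ∉ s := by
  have h1 : IsAlgClosure k (algebraicClosure k M) := inferInstance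
  have h2 : IsAlgClosed (algebraicClosure k M) := h1.isAlgClosed
  have h3 : Infinite (algebraicClosure k M) := inferInstance
  have h4 : (K0 k M : Set M).Infinite := by
    have : Infinite (K0 k M) := h3
    exact Set.infinite_coe_iff.1 this
  obtain ⟨t, ht, hts⟩ := h4.exists_notMem_finset s
  exact ⟨t, ht, hts⟩

/-- elements of `k[x]` are values of polynomials -/
theorem adjoin_range {x a : M} (ha : a ∈ Algebra.adjoin k {x}) :
    a ∈ (Polynomial.aeval x : Polynomial k →ₐ[k] M).toRingHom.range := by
  have h : Algebra.adjoin k {x} = (Polynomial.aeval x : Polynomial k →ₐ[k] M).range :=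
    Algebra.adjoin_singleton_eq_range_aeval k x
  rw [h] at ha
  exact ha

theorem trans_alg {y : M} {p : Polynomial M} (hp : p ≠ 0) (hc : ∀ i, p.coeff i ∈ K0 k M)
    (h : p.eval y = 0) : y ∈ K0 k M := by
  have hlift : p ∈ Polynomial.lifts (algebraMap (algebraicClosure k M) M) := by
    rw [Polynomial.lifts_iff_coeff_lifts]
    intro n
    exact ⟨⟨p.coeff n, hc n⟩, rfl⟩
  obtain ⟨G, hG⟩ := (Polynomial.mem_lifts p).1 hlift
  have h1 : IsAlgebraic (algebraicClosure k M) y := by
    refine ⟨G, ?_, ?_⟩
    · rintro rfl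
      rw [Polynomial.map_zero] at hG
      exact hp hG.symm
    · rw [← hG, Polynomial.eval_map] at h
      exact h
  rw [mem_K0]
  exact h1.restrictScalars k

/-- if `Q(x)` is algebraic over `k(x)`, `x` transcendental over `k(d)`, the coefficients of `Q` algebraic
over `k(d)`, then the coefficients are algebraic over `k` -/
theorem coeff_alg [IsAlgClosed M] {d x : M} (hx : x ∉ QE2.cl k {d}) (Q : Polynomial M)
    (hQ : ∀ n, Q.coeff n ∈ QE2.cl k {d}) (h : Q.eval x ∈ QE2.cl k {x}) (n : ℕ) :
    Q.coeff n ∈ K0 k M := by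
  classical
  obtain ⟨p, hp, hp2⟩ := QE2.mem_cl.1 h
  set p' : Polynomial M := p.map (algebraMap (Algebra.adjoin k {x}) M) with hp'
  have hlift : p' ∈ Polynomial.lifts ((Polynomial.aeval x : Polynomial k →ₐ[k] M).toRingHom) := by
    rw [Polynomial.lifts_iff_coeff_lifts]
    intro n
    rw [hp', Polynomial.coeff_map]
    exact adjoin_range (p.coeff n).2
  obtain ⟨G, hG⟩ := (Polynomial.mem_lifts p').1 hlift
  have hp0 : p' ≠ 0 := by
    rw [hp']
    exact (Polynomial.map_ne_zero_iff Subtype.val_injective).2 hp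
  have hG0 : G ≠ 0 := by
    rintro rfl
    rw [Polynomial.map_zero] at hG
    exact hp0 hG.symm
  obtain ⟨b0, hb0⟩ : ∃ b, G.coeff b ≠ 0 := by
    by_contra hcon
    push Not at hcon
    exact hG0 (Polynomial.ext fun n => by rw [hcon n, Polynomial.coeff_zero])
  set ι : Polynomial k →+* Polynomial M := Polynomial.mapRingHom (algebraMap k M) with hι
  set H : Polynomial M := Polynomial.eval₂ ι Q G with hH
  have hHs : H = ∑ b ∈ G.support, ι (G.coeff b) * Q ^ b := by
    rw [hH, Polynomial.eval₂_eq_sum, Polynomial.sum]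
  have hHc : ∀ n, H.coeff n ∈ QE2.cl k {d} := by
    have hQl : Q ∈ Polynomial.lifts (algebraMap (Kc k d) M) := by
      rw [Polynomial.lifts_iff_coeff_lifts]
      intro n
      exact ⟨⟨Q.coeff n, mem_Kc.2 (hQ n)⟩, rfl⟩
    have hHl : H ∈ Polynomial.lifts (algebraMap (Kc k d) M) := by
      rw [hHs]
      refine Subsemiring.sum_mem _ fun b _ => Subsemiring.mul_mem _ ?_ (Subsemiring.pow_mem _ hQl _)
      rw [Polynomial.lifts_iff_coeff_lifts]
      intro n
      rw [hι, Polynomial.coe_mapRingHom, Polynomial.coeff_map]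
      have : algebraMap k M ((G.coeff b).coeff n) = algebraMap (Kc k d) M
        (algebraMap (Algebra.adjoin k {d}) (Kc k d) (algebraMap k _ ((G.coeff b).coeff n))) := rfl
      rw [this]
      exact ⟨_, rfl⟩
    intro n
    rw [Polynomial.lifts_iff_coeff_lifts] at hHl
    obtain ⟨a, ha⟩ := hHl n
    rw [← ha]
    exact mem_Kc.1 a.2
  have hHx : H.eval x = 0 := by
    have h1 : H.eval x = p'.eval (Q.eval x) := by
      rw [← hG, Polynomial.eval_map, hH]
      have h2 := Polynomial.hom_eval₂ G ι (Polynomial.evalRingHom x) Q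
      rw [Polynomial.coe_evalRingHom] at h2
      rw [h2]
      congr 1
      apply Polynomial.ringHom_ext
      · intro a
        simp [hι]
      · simp [hι]
    rw [h1, hp', Polynomial.eval_map]
    exact hp2
  have hH0 : H = 0 := eq_zero_of_root hx H hHc hHx
  -- values
  have hval : ∀ s : Finset M, ∃ t ∈ K0 k M, t ∉ s ∧ Q.eval t ∈ K0 k M := by
    intro s
    obtain ⟨t, ht, hts⟩ := K0_infinite (k := k) (s ∪ (ι (G.coeff b0)).roots.toFinset)
    rw [Finset.mem_union, not_or, Multiset.mem_toFinset] at hts
    have hι0 : ι (G.coeff b0) ≠ 0 := by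
      rw [hι, Polynomial.coe_mapRingHom]
      exact (Polynomial.map_ne_zero_iff (algebraMap k M).injective).2 hb0
    have hne : (ι (G.coeff b0)).eval t ≠ 0 := fun h0 => hts.2 ((Polynomial.mem_roots hι0).2 h0)
    refine ⟨t, ht, hts.1, ?_⟩
    set φ : Polynomial k →+* M := (Polynomial.evalRingHom t).comp ι with hφ
    have hφt : ∀ g : Polynomial k, φ g ∈ K0 k M := by
      intro g
      have : φ g = Polynomial.aeval t g := by
        rw [hφ, RingHom.comp_apply, hι, Polynomial.coe_mapRingHom, Polynomial.coe_evalRingHom,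
          Polynomial.eval_map_algebraMap]
      rw [this]
      have h2 : Polynomial.aeval t g ∈ algebraicClosure k M := by
        have ht' : t ∈ algebraicClosure k M := ht
        have h3 := Polynomial.aeval_algebraMap_apply M (⟨t, ht'⟩ : algebraicClosure k M) g
        have h4 : algebraMap (algebraicClosure k M) M ⟨t, ht'⟩ = t := rfl
        rw [h4] at h3
        rw [h3]
        exact (Polynomial.aeval (⟨t, ht'⟩ : algebraicClosure k M) g).2
      exact h2
    refine trans_alg (p := G.map φ) ?_ (fun i => ?_) ?_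
    · intro h0
      have h1 := congrArg (fun q : Polynomial M => q.coeff b0) h0
      simp only [Polynomial.coeff_map, Polynomial.coeff_zero] at h1
      exact hne h1
    · rw [Polynomial.coeff_map]
      exact hφt _
    · rw [Polynomial.eval_map, hφ]
      have h2 := Polynomial.hom_eval₂ G ι (Polynomial.evalRingHom t) Q
      rw [Polynomial.coe_evalRingHom] at h2
      rw [← h2, ← hH, hH0, Polynomial.eval_zero]
  exact coeff_mem_of_values (K0 k M) Q.natDegree Q le_rfl hval n

end abs3

end Pool.Agent.Q36.AU
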