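import Pool.Agent.Q36.AU.Pat

set_option autoImplicit false

/-!
# 2-automatic sequences have algebraic generating series (Christol, the easy direction)
-/

namespace Pool.Agent.Q36.AU

open PowerSeries Pool.Agent.TH693.PP Pool.Agent.TH693.QQ Pool.Agent.H397R2.PP Pool.Agent.Y517.PT
open Pool.Agent.Y627.PT

/-- the 2-kernel -/
def kernel (a : ℕ → ZMod 2) : Set (ℕ → ZMod 2) :=
  {b | ∃ k r : ℕ, r < 2 ^ k ∧ b = fun n => a (2 ^ k * n + r)}

theorem self_mem_kernel (a : ℕ → ZMod 2) : a ∈ kernel a :=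
  ⟨0, 0, by norm_num, by funext n; simp⟩

theorem kernel_step {a b : ℕ → ZMod 2} (hb : b ∈ kernel a) {i : ℕ} (hi : i < 2) :
    (fun n => b (2 * n + i)) ∈ kernel a := by
  obtain ⟨k, r, hr, rfl⟩ := hb
  refine ⟨k + 1, 2 ^ k * i + r, ?_, ?_⟩
  · rw [pow_succ]
    have : 2 ^ k * i ≤ 2 ^ k * 1 := Nat.mul_le_mul_left _ (by omega)
    omega
  · funext n
    show a (2 ^ k * (2 * n + i) + r) = a (2 ^ (k + 1) * n + (2 ^ k * i + r))
    congr 1
    rw [pow_succ]
    ring

theorem mk_split (b : ℕ → ZMod 2) : (PowerSeries.mk b : S) =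
    (PowerSeries.mk fun n => b (2 * n + 0)) ^ 2 + X * (PowerSeries.mk fun n => b (2 * n + 1)) ^ 2 := by
  have h2 : ∀ g : S, g ^ 2 = PowerSeries.expand 2 (by norm_num) g := by
    intro g
    have := pow_two_expand 1 g
    simpa using this
  rw [h2, h2]
  ext n
  rw [map_add, coeff_mk]
  obtain ⟨q, rfl | rfl⟩ : ∃ q, n = 2 * q ∨ n = 2 * q + 1 := ⟨n / 2, by omega⟩
  · rw [PowerSeries.coeff_expand_mul, coeff_mk, add_zero]
    cases q with
    | zero => simp
    | succ q =>
      rw [show 2 * (q + 1) = (2 * q + 1) + 1 by ring, PowerSeries.coeff_succ_X_mul,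
        PowerSeries.coeff_expand, if_neg (by omega), add_zero]
  · rw [PowerSeries.coeff_succ_X_mul, PowerSeries.coeff_expand_mul, coeff_mk,
      PowerSeries.coeff_expand, if_neg (by omega), zero_add]

theorem sum_sq {ι : Type} (s : Finset ι) (f : ι → S) (k : ℕ) :
    (∑ i ∈ s, f i) ^ 2 ^ k = ∑ i ∈ s, f i ^ 2 ^ k := by
  rw [pow_two_expand, map_sum]
  refine Finset.sum_congr rfl fun i _ => ?_
  rw [pow_two_expand]

theorem io_pow (f : F) (n : ℕ) : io f ^ n = io (f ^ n) := (map_pow io f n).symm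

theorem span_step {a : ℕ → ZMod 2} (hfin : (kernel a).Finite) (k : ℕ) : ∀ b ∈ kernel a,
    ∃ M : (ℕ → ZMod 2) → F, (PowerSeries.mk b : S) =
      ∑ b' ∈ hfin.toFinset, io (M b') * (PowerSeries.mk b') ^ 2 ^ k := by
  classical
  induction k with
  | zero =>
    intro b hb
    refine ⟨fun b' => if b' = b then 1 else 0, ?_⟩
    rw [Finset.sum_eq_single b]
    · simp only [if_true]
      rw [map_one, one_mul, pow_zero, pow_one]
    · intro b' _ hne
      simp only
      rw [if_neg hne, map_zero, zero_mul]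
    · intro h
      exact absurd (hfin.mem_toFinset.2 hb) h
  | succ k ih =>
    intro b hb
    obtain ⟨M0, h0⟩ := ih _ (kernel_step hb (i := 0) (by norm_num))
    obtain ⟨M1, h1⟩ := ih _ (kernel_step hb (i := 1) (by norm_num))
    refine ⟨fun b' => M0 b' ^ 2 + Polynomial.X * M1 b' ^ 2, ?_⟩
    rw [mk_split b, h0, h1]
    have h2 := fun f : (ℕ → ZMod 2) → S => sum_sq hfin.toFinset f 1
    simp only [pow_one] at h2
    rw [h2, h2, Finset.mul_sum, ← Finset.sum_add_distrib]
    refine Finset.sum_congr rfl fun b' _ => ?_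
    rw [map_add, map_mul, map_pow, map_pow, QE2.io_X, pow_succ 2 k, pow_mul]
    ring

theorem algX_of_kernel {a : ℕ → ZMod 2} (hfin : (kernel a).Finite) :
    AlgX (PowerSeries.mk a : S) := by
  classical
  set s := hfin.toFinset.card with hs
  choose M hM using fun k => span_step hfin (s - k) a (self_mem_kernel a)
  let φ : (Fin (s + 1) → F) →ₗ[F] (hfin.toFinset → F) :=
    { toFun := fun u b => ∑ k : Fin (s + 1), u k * (M k b.1) ^ 2 ^ (k : ℕ)
      map_add' := fun u v => by
        funext b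
        simp only [Pi.add_apply, add_mul, Finset.sum_add_distrib]
      map_smul' := fun c u => by
        funext b
        simp only [Pi.smul_apply, smul_eq_mul, RingHom.id_apply, mul_assoc, Finset.mul_sum] }
  obtain ⟨u, hu0, hu⟩ : ∃ u : Fin (s + 1) → F, u ≠ 0 ∧ φ u = 0 := by
    by_contra hcon
    push Not at hcon
    have hinj : Function.Injective φ := by
      rw [injective_iff_map_eq_zero]
      intro u hu
      by_contra h
      exact hcon u h hu
    have hcard := card_le_of_injective F φ hinj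
    rw [Fintype.card_fin, Fintype.card_coe] at hcard
    omega
  obtain ⟨k0, hk0⟩ : ∃ k, u k ≠ 0 := by
    by_contra hcon
    push Not at hcon
    exact hu0 (funext hcon)
  refine ⟨∑ k : Fin (s + 1), Polynomial.C (u k) * Polynomial.X ^ 2 ^ (k : ℕ), ?_, ?_⟩
  · intro h0
    have h1 := congrArg (fun g : Polynomial F => g.coeff (2 ^ (k0 : ℕ))) h0
    simp only [Polynomial.finsetSum_coeff, Polynomial.coeff_C_mul, Polynomial.coeff_X_pow,
      Polynomial.coeff_zero] at h1
    rw [Finset.sum_eq_single k0] at h1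
    · rw [if_pos rfl, mul_one] at h1
      exact hk0 h1
    · intro k _ hk
      rw [if_neg, mul_zero]
      intro h2
      exact hk (Fin.ext (Nat.pow_right_injective le_rfl h2).symm)
    · intro h
      exact absurd (Finset.mem_univ _) h
  · rw [map_sum]
    have h1 : ∀ k : Fin (s + 1), evp (PowerSeries.mk a) (Polynomial.C (u k) *
        Polynomial.X ^ 2 ^ (k : ℕ)) = ∑ b ∈ hfin.toFinset,
        io (u k * (M k b) ^ 2 ^ (k : ℕ)) * (PowerSeries.mk b) ^ 2 ^ s := by
      intro k
      rw [map_mul, map_pow, QE2.evp_C, QE2.evp_X]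
      conv_lhs => rw [hM k, sum_sq, Finset.mul_sum]
      refine Finset.sum_congr rfl fun b _ => ?_
      rw [mul_pow, ← pow_mul, ← pow_add, io_pow, map_mul, mul_assoc]
      congr 3
      have := k.2
      congr 1
      omega
    rw [Finset.sum_congr rfl fun k _ => h1 k, Finset.sum_comm]
    refine Finset.sum_eq_zero fun b hb => ?_
    rw [← Finset.sum_mul, ← map_sum]
    have h2 := congrFun hu ⟨b, hb⟩
    have h3 : ∑ k : Fin (s + 1), u k * (M k b) ^ 2 ^ (k : ℕ) = 0 := h2
    rw [h3, map_zero, zero_mul]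

theorem kernel_section {a : ℕ → ZMod 2} (hfin : (kernel a).Finite) (M r : ℕ) (hM : 0 < M) :
    (kernel fun n => if n % M = r % M then a n else 0).Finite := by
  have h1 : (kernel fun n => if n % M = r % M then a n else 0) ⊆
      (fun z : (ℕ → ZMod 2) × ℕ × ℕ => fun n => if (z.2.1 * n + z.2.2) % M = r % M then z.1 n else 0) ''
        (kernel a ×ˢ (Set.Iio M ×ˢ Set.Iio M)) := by
    rintro _ ⟨k, s, hs, rfl⟩
    refine ⟨(fun n => a (2 ^ k * n + s), 2 ^ k % M, s % M), ⟨⟨k, s, hs, rfl⟩, Nat.mod_lt _ hM,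
      Nat.mod_lt _ hM⟩, ?_⟩
    funext n
    simp only
    have h2 : (2 ^ k % M * n + s % M) % M = (2 ^ k * n + s) % M := by
      rw [Nat.add_mod, Nat.mod_mul_mod, Nat.mod_mod, ← Nat.add_mod]
    rw [h2]
  exact ((hfin.prod ((Set.finite_Iio M).prod (Set.finite_Iio M))).image _).subset h1

theorem algX_proj {a : ℕ → ZMod 2} (hfin : (kernel a).Finite) (M r : ℕ) (hM : 0 < M) :
    AlgX (proj M r (PowerSeries.mk a)) := by
  have h := algX_of_kernel (kernel_section hfin M r hM)
  have h2 : proj M r (PowerSeries.mk a : S) =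
      PowerSeries.mk fun n => if n % M = r % M then a n else 0 := by
    ext n
    rw [proj_coeff, coeff_mk, coeff_mk]
  rw [h2]
  exact h

end Pool.Agent.Q36.AU
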