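import Pool.Agent.Q36.AU.Alg

set_option autoImplicit false

/-!
# Combinations of functions in `X ^ (e / 24) K` which are algebraic over `F_2(X)` are polynomials
-/

namespace Pool.Agent.Q36.AU

open PowerSeries Pool.Agent.TH693.PP Pool.Agent.TH693.QQ Pool.Agent.H397R2.PP Pool.Agent.Y517.PT
open Pool.Agent.Y627.PT

theorem ex2_inj (i : ℕ) : Function.Injective (fun u : S => u ^ 2 ^ i) := by
  intro u v h
  simp only at h
  rw [pow_two_expand, pow_two_expand] at h
  ext n
  have h1 := congrArg (coeff (2 ^ i * n)) h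
  rwa [PowerSeries.coeff_expand_mul, PowerSeries.coeff_expand_mul] at h1

theorem unit_eq_one {u : S} {N : ℕ} (hN : 0 < N) (h : u ^ N = 1) : u = 1 := by
  have hfin : (Set.range fun i : ℕ => u ^ 2 ^ i).Finite := by
    apply Set.Finite.subset (Set.finite_range fun i : Fin N => u ^ (i : ℕ))
    rintro _ ⟨i, rfl⟩
    refine ⟨⟨2 ^ i % N, Nat.mod_lt _ hN⟩, ?_⟩
    simp only
    conv_rhs => rw [← Nat.div_add_mod (2 ^ i) N, pow_add, pow_mul, h, one_pow, one_mul]
  obtain ⟨i, j, hij, heq⟩ : ∃ i j : ℕ, i < j ∧ u ^ 2 ^ i = u ^ 2 ^ j := by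
    by_contra hcon
    push Not at hcon
    have hinj : Function.Injective fun i : ℕ => u ^ 2 ^ i := by
      intro a b hab
      rcases lt_trichotomy a b with h1 | h1 | h1
      · exact absurd hab (hcon a b h1)
      · exact h1
      · exact absurd hab.symm (hcon b a h1)
    exact Set.infinite_range_of_injective hinj hfin
  obtain ⟨s, rfl⟩ : ∃ s, j = i + s := ⟨j - i, by omega⟩
  have hs : 0 < s := by omega
  have h1 : u = u ^ 2 ^ s := by
    apply ex2_inj i
    simp only
    rw [heq, ← pow_mul, ← pow_add, add_comm i s]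
  rw [pow_two_expand] at h1
  have h2 : ∀ n, 0 < n → coeff n u = 0 := by
    intro n
    induction n using Nat.strong_induction_on with
    | _ n ih =>
      intro hn
      rw [h1, PowerSeries.coeff_expand]
      split_ifs with hd
      · have h4 : 2 ≤ 2 ^ s := by
          calc 2 = 2 ^ 1 := (pow_one 2).symm
            _ ≤ 2 ^ s := Nat.pow_le_pow_right (by norm_num) hs
        exact ih (n / 2 ^ s) (Nat.div_lt_self hn h4) (Nat.div_pos (Nat.le_of_dvd hn hd) (by positivity))
      · rfl
  have h3 : constantCoeff u ≠ 0 := by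
    intro h0
    have := congrArg constantCoeff h
    rw [map_pow, h0, zero_pow hN.ne', map_one] at this
    exact zero_ne_one this
  ext n
  rw [PowerSeries.coeff_one]
  split_ifs with hn
  · rw [hn, coeff_zero_eq_constantCoeff_apply]
    exact (by decide : ∀ a : ZMod 2, a ≠ 0 → a = 1) _ h3
  · exact h2 n (Nat.pos_of_ne_zero hn)

theorem eq_X_pow {c : S} {N L : ℕ} (hN : 0 < N) (h : c ^ N = X ^ L) : ∃ m, c = X ^ m := by
  have hc : c ≠ 0 := by
    rintro rfl
    rw [zero_pow hN.ne'] at h
    exact pow_ne_zero L PowerSeries.X_ne_zero h.symm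
  have h6 := congrArg PowerSeries.order h
  rw [PowerSeries.order_pow, PowerSeries.order_X_pow] at h6
  have h7 : c.order ≠ ⊤ := by
    rw [Ne, PowerSeries.order_eq_top]
    exact hc
  obtain ⟨m, hm⟩ := ENat.ne_top_iff_exists.1 h7
  rw [← hm] at h6
  have h8 : N * m = L := by
    have : ((N * m : ℕ) : ℕ∞) = (L : ℕ∞) := by
      rw [← h6]
      simp
    exact_mod_cast this
  have hdvd : (X : S) ^ m ∣ c := by
    have := PowerSeries.X_pow_order_dvd (φ := c)
    rwa [← hm, ENat.toNat_natCast] at this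
  obtain ⟨w, hw⟩ := hdvd
  refine ⟨m, ?_⟩
  have h9 : w ^ N = 1 := by
    have h10 : (X : S) ^ L * w ^ N = X ^ L * 1 := by
      rw [mul_one, ← h8, mul_comm N m, pow_mul, ← mul_pow, ← hw, h, ← pow_mul, mul_comm m N, h8]
    exact mul_left_cancel₀ (pow_ne_zero _ PowerSeries.X_ne_zero) h10
  rw [hw, unit_eq_one hN h9, mul_one]

/-- a combination of functions in `X ^ (e / 24) K` that is algebraic over `F_2(X)` is a polynomial -/
theorem alg_comb {J : Type} [Fintype J] (g : J → S) (t : J → ℕ) (hAL : ∀ j, ALX (g j) (t j))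
    (a : J → F) (halg : AlgX (∑ j, io (a j) * g j)) : ∃ b : F, ∑ j, io (a j) * g j = io b := by
  classical
  have hDb : ¬ AlgX Db := QC.qc
  obtain ⟨xi, hxi⟩ : ∃ xi : Om, xi ^ 24 = e (T5.jj X) :=
    IsAlgClosed.exists_pow_nat_eq (e (T5.jj X)) (by norm_num)
  set d : Om := e (T5.jj Db) with hd
  have hejj : Function.Injective (fun s : S => e (T5.jj s)) := by
    intro s s' h
    exact T5.jj_inj (e.toRingHom.injective h)
  have hX : e (T5.jj X) ∉ QE2.cl (ZMod 2) {d} := fun h => X_notMem hDb (cl_comap e h)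
  have hxiK : xi ∉ QE2.cl (ZMod 2) {d} := fun h => hX (hxi ▸ QE2.pow_mem' h 24)
  have hxi0 : xi ≠ 0 := by
    rintro rfl
    rw [zero_pow (by norm_num)] at hxi
    have h1 : T5.jj X = 0 := (map_eq_zero e.toRingHom).1 hxi.symm
    rw [map_eq_zero_iff T5.jj T5.jj_inj] at h1
    exact PowerSeries.X_ne_zero h1
  set de : J → Om := fun j => e (T5.jj (g j)) / xi ^ t j with hde
  have hdeK : ∀ j, de j ∈ QE2.cl (ZMod 2) {d} := by
    intro j
    apply QE2.of_pow_mem (n := 24) (by norm_num)
    have h1 := cl_map e (T5.mem_of_AL (hAL j))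
    have h2 : de j ^ 24 = e (algebraMap Sk Lk (ik (g j)) ^ 24 /
        algebraMap Sk Lk X ^ t j) := by
      rw [map_div₀, map_pow, map_pow, hde]
      simp only
      rw [div_pow, ← pow_mul, mul_comm (t j) 24, pow_mul, hxi, T5.jj_X]
      rfl
    rw [h2]
    exact h1
  have hdex : ∀ j, de j * xi ^ t j = e (T5.jj (g j)) := by
    intro j
    rw [hde]
    exact div_mul_cancel₀ _ (pow_ne_zero _ hxi0)
  -- the polynomial
  set q : F → Polynomial Om := fun f => Polynomial.expand Om 24 (f.map (algebraMap (ZMod 2) Om))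
    with hq
  set Q : Polynomial Om :=
    ∑ j, Polynomial.C (de j) * (Polynomial.X ^ t j * q (a j)) with hQ
  have hqK : ∀ (f : F) (n : ℕ), (q f).coeff n ∈ Kc (ZMod 2) d := by
    intro f n
    rw [hq]
    simp only
    rw [Polynomial.coeff_expand (by norm_num)]
    split_ifs with h
    · rw [Polynomial.coeff_map]
      have h1 : algebraMap (ZMod 2) Om (f.coeff (n / 24)) =
        algebraMap (Algebra.adjoin (ZMod 2) {d}) Om
          (algebraMap (ZMod 2) (Algebra.adjoin (ZMod 2) {d}) (f.coeff (n / 24))) := rfl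
      rw [h1]
      exact Subalgebra.algebraMap_mem _ _
    · exact Subalgebra.zero_mem _
  have hQK : ∀ n, Q.coeff n ∈ QE2.cl (ZMod 2) {d} := by
    intro n
    rw [← mem_Kc, hQ, Polynomial.finsetSum_coeff]
    refine Subalgebra.sum_mem _ fun j _ => ?_
    rw [Polynomial.coeff_C_mul, Polynomial.coeff_X_pow_mul']
    refine Subalgebra.mul_mem _ (mem_Kc.2 (hdeK j)) ?_
    split_ifs
    · exact hqK _ _
    · exact Subalgebra.zero_mem _
  have hQx : Q.eval xi = e (T5.jj (∑ j, io (a j) * g j)) := by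
    rw [hQ, Polynomial.eval_finsetSum, map_sum, map_sum]
    refine Finset.sum_congr rfl fun j _ => ?_
    rw [Polynomial.eval_mul, Polynomial.eval_mul, Polynomial.eval_C, Polynomial.eval_pow,
      Polynomial.eval_X, ← mul_assoc, hdex, map_mul, map_mul, mul_comm]
    congr 1
    exact (eval_io xi hxi (a j)).symm
  have hQcl : Q.eval xi ∈ QE2.cl (ZMod 2) {xi} := by
    rw [hQx]
    have h1 := cl_map e (T5.mem_of_algX halg)
    refine QE2.cl_cl ?_ h1
    rintro _ rfl
    rw [← hxi]
    exact QE2.pow_mem' (QE2.self_mem (Set.mem_singleton _)) 24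
  have hQ0 : ∀ E, Q.coeff E ∈ K0 (ZMod 2) Om := coeff_alg hxiK Q hQK hQcl
  -- the components
  have hmon : ∀ (n : ℕ) (c : ZMod 2), e (T5.jj (io (Polynomial.monomial n c))) =
      algebraMap (ZMod 2) Om c * xi ^ (24 * n) := by
    intro n c
    rw [← Polynomial.C_mul_X_pow_eq_monomial, map_mul, map_pow, QE2.io_C, QE2.io_X, map_mul,
      map_mul, map_pow, map_pow, T5.jj.commutes, e.commutes, pow_mul, hxi]
  set co : ℕ → S := fun E => ∑ j, (if t j ≤ E ∧ 24 ∣ E - t j then
      io (Polynomial.monomial ((E - t j) / 24) ((a j).coeff ((E - t j) / 24))) * g j else 0) with hco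
  have hcoE : ∀ E, e (T5.jj (co E)) = Q.coeff E * xi ^ E := by
    intro E
    rw [hco]
    simp only
    rw [map_sum, map_sum, hQ, Polynomial.finsetSum_coeff, Finset.sum_mul]
    refine Finset.sum_congr rfl fun j _ => ?_
    rw [Polynomial.coeff_C_mul, Polynomial.coeff_X_pow_mul']
    by_cases h2 : t j ≤ E
    · rw [if_pos h2, hq]
      simp only
      rw [Polynomial.coeff_expand (by norm_num)]
      by_cases h3 : 24 ∣ E - t j
      · obtain ⟨k, hk⟩ := h3
        rw [if_pos ⟨h2, ⟨k, hk⟩⟩, if_pos ⟨k, hk⟩, hk, Nat.mul_div_cancel_left k (by norm_num),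
          Polynomial.coeff_map, map_mul, map_mul, hmon, ← hdex]
        have hE : E = 24 * k + t j := by omega
        rw [hE, pow_add]
        ring
      · rw [if_neg (fun h4 => h3 h4.2), if_neg h3, map_zero, map_zero, mul_zero, zero_mul]
    · rw [if_neg (fun h4 => h2 h4.1), if_neg h2, map_zero, map_zero, mul_zero, zero_mul]
  have hcob : ∀ E, ∃ b : F, co E = io b := by
    intro E
    by_cases h0 : co E = 0
    · exact ⟨0, by rw [h0, map_zero]⟩
    · have h1 : Q.coeff E ≠ 0 := by
        intro h2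
        apply h0
        apply hejj
        simp only
        rw [hcoE, h2, zero_mul, map_zero, map_zero]
      obtain ⟨n, hn, hn1⟩ := QE2.root_of_unity h1 (mem_cl_empty.2 (mem_K0.1 (hQ0 E)))
      obtain ⟨m, hm⟩ : ∃ m, co E = X ^ m := by
        apply eq_X_pow (N := 24 * n) (L := E * n) (by omega)
        apply hejj
        simp only
        rw [map_pow, map_pow, hcoE, mul_pow, mul_comm 24 n, pow_mul, hn1, one_pow, one_mul,
          ← pow_mul, map_pow, map_pow, ← hxi, ← pow_mul]
        congr 1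
        ring
      exact ⟨Polynomial.X ^ m, by rw [hm, map_pow, QE2.io_X]⟩
  choose b hb using hcob
  refine ⟨∑ E ∈ Finset.range (Q.natDegree + 1), b E, ?_⟩
  apply hejj
  simp only
  rw [← hQx, map_sum, map_sum, map_sum, Polynomial.eval_eq_sum_range]
  refine Finset.sum_congr rfl fun E _ => ?_
  rw [← hb, hcoE]

end Pool.Agent.Q36.AU
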