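import Pool.Agent.Q36.AU.Aut
import Pool.Agent.Q36.RD.Pat

set_option autoImplicit false

/-!
# Patterns of functions with good sections together with 2-automatic sequences
-/

namespace Pool.Agent.Q36.AU

open PowerSeries Pool.Agent.TH693.PP Pool.Agent.TH693.QQ Pool.Agent.H397R2.PP Pool.Agent.Y517.PT
open Pool.Agent.Y627.PT

theorem exps {Y : Type} (τ : Y → ℤ) (m : Y → ℕ) (hm : ∀ x, 0 < m x)
    (hd : ∀ x y, x ≠ y → ¬ (24 : ℤ) ∣ τ x * (m y / Nat.gcd (m x) (m y) : ℕ) -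
      τ y * (m x / Nat.gcd (m x) (m y) : ℕ)) :
    ∀ j j' : (x : Y) × Fin (m x), (24 * m j.1 * m j'.1 : ℤ) ∣
      m j'.1 * (τ j.1 - 24 * (j.2 : ℕ)) - m j.1 * (τ j'.1 - 24 * (j'.2 : ℕ)) → j = j' := by
  rintro ⟨x, i⟩ ⟨y, i'⟩ h
  simp only at h
  by_cases hxy : x = y
  · subst hxy
    obtain ⟨k, hk⟩ := h
    have hmz : (m x : ℤ) ≠ 0 := by exact_mod_cast (hm x).ne'
    have h1 : ((i' : ℕ) : ℤ) - (i : ℕ) = m x * k := by
      apply mul_left_cancel₀ (mul_ne_zero (by norm_num : (24 : ℤ) ≠ 0) hmz)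
      linear_combination hk
    have h2 : k = 0 := by
      by_contra hne
      have h8 : 1 ≤ |k| := Int.one_le_abs hne
      have h9 : |((i' : ℕ) : ℤ) - (i : ℕ)| < m x := by
        have q1 := i.2
        have q2 := i'.2
        rw [abs_lt]
        constructor <;> omega
      rw [h1, abs_mul, Nat.abs_cast] at h9
      nlinarith
    rw [h2, mul_zero] at h1
    have h3 : i = i' := Fin.ext (by omega)
    rw [h3]
  · exfalso
    apply hd x y hxy
    set g := Nat.gcd (m x) (m y) with hg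
    have hg0 : 0 < g := Nat.gcd_pos_of_pos_left _ (hm x)
    obtain ⟨α, hα⟩ := Nat.gcd_dvd_left (m x) (m y)
    obtain ⟨β, hβ⟩ := Nat.gcd_dvd_right (m x) (m y)
    rw [← hg] at hα hβ
    have e1 : m x / g = α := by rw [hα, Nat.mul_div_cancel_left _ hg0]
    have e2 : m y / g = β := by rw [hβ, Nat.mul_div_cancel_left _ hg0]
    rw [e1, e2]
    obtain ⟨k, hk⟩ := h
    have a1 : (m x : ℤ) = g * α := by exact_mod_cast hα
    have a2 : (m y : ℤ) = g * β := by exact_mod_cast hβ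
    have hgz : (g : ℤ) ≠ 0 := by exact_mod_cast hg0.ne'
    rw [a1, a2] at hk
    have h1 : (β : ℤ) * (τ x - 24 * (i : ℕ)) - α * (τ y - 24 * (i' : ℕ)) =
        24 * (g * α * β * k) := by
      apply mul_left_cancel₀ hgz
      linear_combination hk
    exact ⟨β * (i : ℕ) - α * (i' : ℕ) + g * α * β * k, by linear_combination h1⟩

theorem alg_sections {J : Type} (G : J → S) (τ : J → ℤ) (hG : ∀ j, Sec (G j) (τ j))
    (m i : J → ℕ) (B M : ℕ) (hB0 : B ≠ 0) (hm : ∀ j, m j ∣ B) (hi : ∀ j, i j < m j) (hM : 0 < M)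
    (j : J × Fin M) : AlgOver Db (ex B hB0 (proj M j.2 (fn (G j.1) (m j.1) (i j.1)))) := by
  obtain ⟨e', he⟩ := hm j.1
  have he0 : e' ≠ 0 := by rintro rfl; exact hB0 (by rw [he, mul_zero])
  have h2 := fn_rel (G j.1) (m j.1) (i j.1) e' j.2 M B (by rw [he]; ring) hB0 he0 (hi j.1)
  have h3 : AZ (T5.jj (ex e' he0 (proj (m j.1 * M) (m j.1 * j.2 + i j.1) (G j.1))))
      (e' * τ j.1) :=
    az_ex he0 (hG j.1 _ _ (Nat.mul_pos (by have := hi j.1; omega) hM))
  have h4 := mem_of_az h3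
  rw [← h2, map_mul, map_pow] at h4
  apply T5.algOver_of_mem
  have h5 : T5.jj X ^ (i j.1 * e') ∈ QE2.cl (ZMod 2) {T5.jj X, T5.jj Db} :=
    QE2.pow_mem' (QE2.self_mem (by simp)) _
  have h6 := QE2.mul_mem' h4 (QE2.inv_mem' h5)
  rwa [mul_comm, ← mul_assoc, inv_mul_cancel₀ (pow_ne_zero _ xx_ne), one_mul] at h6

theorem main_aut {Y Z : Type} [Fintype Y] [Fintype Z] (G : Y → S) (τ : Y → ℤ)
    (hG : ∀ x, Sec (G x) (τ x)) (m : Y → ℕ) (hm : ∀ x, 0 < m x) (h24 : ∀ x, ¬ (24 : ℤ) ∣ τ x)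
    (hd : ∀ x y, x ≠ y → ¬ (24 : ℤ) ∣ τ x * (m y / Nat.gcd (m x) (m y) : ℕ) -
      τ y * (m x / Nat.gcd (m x) (m y) : ℕ)) (M : ℕ) (hM : 0 < M)
    (u : Z → ℕ → ZMod 2) (hu : ∀ z, (kernel (u z)).Finite) :
    ∃ C : ℕ, ∀ (K : ℕ) (c : Y → ℕ → ZMod 2) (c' : Z → ℕ → ZMod 2) (ρ : ℕ),
      (∃ x, ∃ i < K, c x i ≠ 0 ∧ proj (m x * M) (m x * ρ + i) (G x) ≠ 0) →
      ∀ (κ : ZMod 2) (A : ℕ), ∃ n, A ≤ n ∧ n ≤ C * (A + K) ∧ n % M = ρ % M ∧
        ∑ x, ∑ i ∈ Finset.range K, c x i * coeff (m x * n + i) (G x) +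
          ∑ z, ∑ i ∈ Finset.range K, c' z i * u z (n + i) = κ := by
  classical
  set B : ℕ := ∏ x, m x with hB
  have hB0 : B ≠ 0 := Finset.prod_ne_zero_iff.2 fun x _ => (hm x).ne'
  have hmB : ∀ x, m x ∣ B := fun x => Finset.dvd_prod_of_mem m (Finset.mem_univ x)
  have hexp := exps τ m hm hd
  set f : ((x : Y) × Fin (m x)) ⊕ Z → S :=
    Sum.elim (fun j => fn (G j.1) (m j.1) j.2) (fun z => PowerSeries.mk (u z)) with hf
  obtain ⟨C, hC⟩ := pat' f (fun j => j.isLeft = true) M hM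
    (lfor_ex _ B hB0 (by
      rintro ⟨j | z, r⟩
      · exact alg_sections (fun j : (x : Y) × Fin (m x) => G j.1) (fun j => τ j.1)
          (fun j => hG j.1) (fun j => m j.1) (fun j => j.2) B M hB0 (fun j => hmB j.1)
          (fun j => j.2.2) hM (j, r)
      · exact algOver_of_algX (algX_ex B hB0 (algX_proj (hu z) M r hM))))
    (by
      intro a b hrel
      rintro ⟨j | z, r⟩ hgood hne
      · rw [Fintype.sum_prod_type, Fintype.sum_sum_type] at hrel
        have halg : AlgX (∑ z : Z, ∑ r : Fin M, io (a (Sum.inr z, r)) *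
            proj M r (PowerSeries.mk (u z)) + io b) :=
          algX_add (algX_sum _ _ fun z _ => algX_sum _ _ fun r _ =>
            algX_mul (algX_io _) (algX_proj (hu z) M r hM)) (algX_io b)
        have h := lin_alg (fun j : (x : Y) × Fin (m x) => G j.1) (fun j => τ j.1)
          (fun j => hG j.1) (fun j => m j.1) (fun j => j.2) B M hB0 (fun j => hmB j.1)
          (fun j => j.2.2) hM (fun j => h24 j.1) hexp (fun j => a (Sum.inl j.1, j.2)) _ halg (by
            rw [Fintype.sum_prod_type, ← add_assoc]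
            exact hrel) (j, r) hne
        exact h
      · exact absurd hgood (by simp))
  refine ⟨2 * C, fun K c cz ρ hc κ A => ?_⟩
  set c' : (((x : Y) × Fin (m x)) ⊕ Z) → Fin (K + 1) → ZMod 2 :=
    Sum.elim (fun j l => if m j.1 * l + j.2 < K then c j.1 (m j.1 * l + j.2) else 0)
      (fun z l => if (l : ℕ) < K then cz z l else 0) with hc'
  have hK : 0 < K := by
    obtain ⟨_, i0, hi0, -⟩ := hc
    omega
  obtain ⟨n, h1, h2, h4, h5⟩ := hC K c' ρ (by
    obtain ⟨x, i0, hi0, hne, hpr⟩ := hc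
    have hlt := Nat.mod_lt i0 (hm x)
    have hdm := Nat.div_add_mod i0 (m x)
    have hle := Nat.div_le_self i0 (m x)
    refine ⟨Sum.inl ⟨x, ⟨i0 % m x, hlt⟩⟩, ⟨i0 / m x, by omega⟩, rfl, ?_, ?_⟩
    · rw [hc']
      simp only [Sum.elim_inl]
      rw [hdm, if_pos hi0]
      exact hne
    · rw [hf]
      simp only [Sum.elim_inl]
      intro h0
      apply hpr
      obtain ⟨e, he⟩ := hmB x
      have he0 : e ≠ 0 := by rintro rfl; exact hB0 (by rw [he, mul_zero])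
      have h6 := fn_rel (G x) (m x) (i0 % m x) e (ρ + i0 / m x) M B (by rw [he]; ring) hB0 he0 hlt
      rw [h0, map_zero, mul_zero] at h6
      have h7 := ex_inj e he0 ((map_zero (ex e he0)).trans h6)
      have h8 : m x * (ρ + i0 / m x) + i0 % m x = m x * ρ + i0 := by rw [mul_add]; omega
      rw [h8] at h7
      exact h7.symm) κ A
  refine ⟨n, h1, ?_, h4, ?_⟩
  · refine h2.trans ?_
    have : C * (A + K + 1) ≤ C * (2 * (A + K)) := Nat.mul_le_mul_left _ (by omega)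
    refine this.trans (le_of_eq ?_)
    ring
  · rw [← h5, Fintype.sum_sum_type, Fintype.sum_sigma]
    congr 1
    · refine Finset.sum_congr rfl fun x _ => ?_
      rw [← sum_split (m x) K (hm x) (fun i => c x i * coeff (m x * n + i) (G x)), Finset.sum_range]
      refine Finset.sum_congr rfl fun i0 _ => ?_
      rw [Finset.sum_range]
      refine Finset.sum_congr rfl fun l _ => ?_
      rw [hc', hf]
      simp only [Sum.elim_inl]
      rw [fn, coeff_mk, show m x * (n + (l : ℕ)) + (i0 : ℕ) = m x * n + (m x * l + i0) by ring]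
      split_ifs
      · rfl
      · rw [zero_mul]
    · refine Finset.sum_congr rfl fun z _ => ?_
      rw [hc', hf]
      simp only [Sum.elim_inr, coeff_mk]
      rw [Fin.sum_univ_castSucc]
      simp only [Fin.val_castSucc, Fin.is_lt, if_true, Fin.val_last, lt_irrefl, if_false, zero_mul,
        add_zero]
      rw [Finset.sum_range]

/-- the multipartition functions -/
theorem pat_P_aut {k l : ℕ} (t : Fin k → ℕ) (ht : ∀ j, Odd (t j)) (m : Fin k → ℕ)
    (hm : ∀ j, 0 < m j)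
    (hsep : ∀ j l, j ≠ l → ¬ (24 : ℤ) ∣ t j * (m l / Nat.gcd (m j) (m l) : ℕ) -
      t l * (m j / Nat.gcd (m j) (m l) : ℕ)) (M : ℕ) (hM : 0 < M)
    (u : Fin l → ℕ → ZMod 2) (hu : ∀ z, (kernel (u z)).Finite) :
    ∃ C : ℕ, ∀ (K : ℕ) (c : Fin k → ℕ → ZMod 2) (c' : Fin l → ℕ → ZMod 2) (ρ : ℕ),
      (∃ j, ∃ i < K, c j i ≠ 0) →
      ∀ (κ : ZMod 2) (A : ℕ), ∃ n, A ≤ n ∧ n ≤ C * (A + K) ∧ n % M = ρ % M ∧
        ∑ j, ∑ i ∈ Finset.range K, c j i * coeff (m j * n + i) (Pool.Agent.TH693.PP.P ^ t j) +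
          ∑ z, ∑ i ∈ Finset.range K, c' z i * u z (n + i) = κ := by
  obtain ⟨C, hC⟩ := main_aut (fun j => Pool.Agent.TH693.PP.P ^ t j)
    (fun j => ((t j : ℕ) : ℤ) * 1) (fun j => Pool.Agent.Y627.PT.sec_pow Pool.Agent.Y627.PT.sec_P (t j))
    m hm (fun j h => by
      rw [mul_one] at h
      obtain ⟨a, ha⟩ := ht j
      omega) (fun j l hjl h => hsep j l hjl (by simpa using h)) M hM u hu
  refine ⟨C, fun K c c' ρ hc κ A => hC K c c' ρ ?_ κ A⟩
  obtain ⟨j, i, hi, hci⟩ := hc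
  exact ⟨j, i, hi, hci, Pool.Agent.Q36.RD.P_proj_ne (t j) (ht j) _ (Nat.mul_pos (hm j) hM) _⟩

end Pool.Agent.Q36.AU
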