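import Pool.Agent.Q36.AU.Comb

set_option autoImplicit false

/-!
# Patterns of functions with good sections plus functions algebraic over `F_2(X)`
-/

namespace Pool.Agent.Q36.AU

open PowerSeries Pool.Agent.TH693.PP Pool.Agent.TH693.QQ Pool.Agent.H397R2.PP Pool.Agent.Y517.PT
open Pool.Agent.Y627.PT

theorem algX_of_cl {g : S} (h : T5.jj g ∈ QE2.cl (ZMod 2) {T5.jj X}) : AlgX g := T5.algX_of_mem h

theorem algX_mul {f g : S} (hf : AlgX f) (hg : AlgX g) : AlgX (f * g) := by
  apply T5.algX_of_mem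
  rw [map_mul]
  exact QE2.mul_mem' (T5.mem_of_algX hf) (T5.mem_of_algX hg)

theorem cl_add {k L : Type} [Field k] [Field L] [Algebra k L] {s : Set L} {y z : L}
    (hy : y ∈ QE2.cl k s) (hz : z ∈ QE2.cl k s) : y + z ∈ QE2.cl k s :=
  QE2.mem_cl.2 ((QE2.mem_cl.1 hy).add (QE2.mem_cl.1 hz))

theorem algX_add {f g : S} (hf : AlgX f) (hg : AlgX g) : AlgX (f + g) := by
  apply T5.algX_of_mem
  rw [map_add]
  exact cl_add (T5.mem_of_algX hf) (T5.mem_of_algX hg)

theorem algX_io (f : F) : AlgX (io f) := by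
  apply T5.algX_of_mem
  exact QE2.mem_cl.2 (isAlgebraic_algebraMap
    (⟨T5.jj (io f), T5.io_mem f⟩ : Algebra.adjoin (ZMod 2) {T5.jj X}))

theorem algX_sum {J : Type} (s : Finset J) (f : J → S) (h : ∀ j ∈ s, AlgX (f j)) :
    AlgX (∑ j ∈ s, f j) := by
  classical
  induction s using Finset.induction_on with
  | empty => rw [Finset.sum_empty, ← map_zero io]; exact algX_io 0
  | insert a s ha ih =>
    rw [Finset.sum_insert ha]
    exact algX_add (h a (Finset.mem_insert_self _ _)) (ih fun j hj => h j (Finset.mem_insert_of_mem hj))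

theorem evp_ex (B : ℕ) (hB : B ≠ 0) (g : S) (G : Polynomial F) :
    ex B hB (evp g G) = evp (ex B hB g) (G.map (Polynomial.expand (ZMod 2) B).toRingHom) := by
  unfold evp
  rw [Polynomial.coe_eval₂RingHom, Polynomial.coe_eval₂RingHom, Polynomial.eval₂_map]
  have h := Polynomial.hom_eval₂ G io ((ex B hB : S →ₐ[ZMod 2] S) : S →+* S) g
  refine (h : _ = _).trans ?_
  congr 1
  refine RingHom.ext fun f => ?_
  exact ex_io B hB f

theorem algX_ex (B : ℕ) (hB : B ≠ 0) {g : S} (h : AlgX g) : AlgX (ex B hB g) := by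
  obtain ⟨G, hG, hG0⟩ := h
  refine ⟨G.map (Polynomial.expand (ZMod 2) B).toRingHom, ?_, ?_⟩
  · refine (Polynomial.map_ne_zero_iff ?_).2 hG
    exact Polynomial.expand_injective (Nat.pos_of_ne_zero hB)
  · rw [← evp_ex, hG0, map_zero]

theorem lin_alg {J : Type} [Fintype J] (G : J → S) (τ : J → ℤ) (hG : ∀ j, Sec (G j) (τ j))
    (m i : J → ℕ) (B M : ℕ) (hB0 : B ≠ 0) (hm : ∀ j, m j ∣ B) (hi : ∀ j, i j < m j) (hM : 0 < M)
    (h24 : ∀ j, ¬ (24 : ℤ) ∣ τ j)
    (hexp : ∀ j j', (24 * m j * m j' : ℤ) ∣ m j' * (τ j - 24 * i j) - m j * (τ j' - 24 * i j') →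
      j = j')
    (c : J × Fin M → F) (α : S) (hα : AlgX α)
    (hrel : ∑ j : J × Fin M, io (c j) * proj M j.2 (fn (G j.1) (m j.1) (i j.1)) + α = 0)
    (j0 : J × Fin M) (hj0 : proj M j0.2 (fn (G j0.1) (m j0.1) (i j0.1)) ≠ 0) : c j0 = 0 := by
  classical
  have hX : ex B hB0 X = X ^ B := PowerSeries.expand_X B hB0
  choose e' he using hm
  have he0 : ∀ j, e' j ≠ 0 := by
    intro j h
    have := he j
    rw [h, mul_zero] at this
    exact hB0 this
  have hm0 : ∀ j, 0 < m j := fun j => by have := hi j; omega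
  have hie : ∀ j, i j * e' j < B := by
    intro j
    rw [he j]
    exact Nat.mul_lt_mul_of_pos_right (hi j) (Nat.pos_of_ne_zero (he0 j))
  obtain ⟨k0, hk0⟩ : ∃ k0 : ℕ, ∀ j, 0 ≤ 24 * (k0 : ℤ) + e' j * τ j := by
    refine ⟨∑ j, (e' j * τ j).natAbs, fun j => ?_⟩
    have h1 : (e' j * τ j).natAbs ≤ ∑ j, (e' j * τ j).natAbs :=
      Finset.single_le_sum (f := fun j => (e' j * τ j).natAbs) (fun _ _ => Nat.zero_le _)
        (Finset.mem_univ j)
    omega
  set s : J → ℕ := fun j => (24 * (k0 : ℤ) + e' j * τ j).toNat with hs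
  have hsz : ∀ j, (s j : ℤ) = 24 * k0 + e' j * τ j := fun j => Int.toNat_of_nonneg (hk0 j)
  set g : J × Fin M → S := fun j =>
    X ^ k0 * ex (e' j.1) (he0 j.1) (proj (m j.1 * M) (m j.1 * j.2 + i j.1) (G j.1)) with hg
  have hgX : ∀ j : J × Fin M, X ^ k0 * (X ^ (i j.1 * e' j.1) *
      ex B hB0 (proj M j.2 (fn (G j.1) (m j.1) (i j.1)))) = g j := fun j => by
    rw [fn_rel (G j.1) (m j.1) (i j.1) (e' j.1) j.2 M B (by rw [he j.1]; ring) hB0 (he0 j.1) (hi j.1)]
  have hALX : ∀ j : J × Fin M, ALX (g j) (s j.1) := by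
    intro j
    apply alx_of_az
    rw [hsz, hg]
    simp only
    rw [map_mul, map_pow]
    exact az_mul (az_x k0) (az_ex (he0 j.1) (hG j.1 _ _ (Nat.mul_pos (hm0 j.1) hM)))
  set A : J × Fin M → F := fun j =>
    Polynomial.X ^ (B - i j.1 * e' j.1) * Polynomial.expand (ZMod 2) B (c j) with hA
  have hsum : ∑ j, io (A j) * g j = X ^ (B + k0) * ex B hB0 α := by
    have h5 : ∀ j : J × Fin M, io (A j) * g j = X ^ (B + k0) *
        ex B hB0 (io (c j) * proj M j.2 (fn (G j.1) (m j.1) (i j.1))) := by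
      intro j
      rw [← hgX, hA]
      simp only
      rw [map_mul, map_pow, QE2.io_X, ← ex_io B hB0, map_mul]
      have h6 : (X : S) ^ (B + k0) = X ^ (B - i j.1 * e' j.1) * X ^ (i j.1 * e' j.1) * X ^ k0 := by
        rw [← pow_add, ← pow_add]
        congr 1
        have := hie j.1
        omega
      rw [h6]
      ring
    have h7 : ∑ j : J × Fin M, io (c j) * proj M j.2 (fn (G j.1) (m j.1) (i j.1)) = α := by
      have h8 : ∀ a b : S, a + b = 0 → a = b := by
        intro a b hab
        have h9 : b + b = 0 := by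
          ext n
          rw [map_add, map_zero]
          exact (by decide : ∀ a : ZMod 2, a + a = 0) _
        calc a = a + (b + b) := by rw [h9, add_zero]
          _ = (a + b) + b := by ring
          _ = b := by rw [hab, zero_add]
      exact h8 _ _ hrel
    rw [Finset.sum_congr rfl fun j _ => h5 j, ← Finset.mul_sum, ← map_sum, h7]
  have halg : AlgX (∑ j, io (A j) * g j) := by
    rw [hsum]
    refine algX_mul ?_ (algX_ex B hB0 hα)
    have := algX_io (Polynomial.X ^ (B + k0))
    rwa [map_pow, QE2.io_X] at this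
  obtain ⟨b, hb⟩ := alg_comb g (fun j => s j.1) hALX A halg
  rw [hsum] at hb
  -- `α` is a polynomial
  have hα2 : ∃ d : F, io d = α := by
    refine ⟨PowerSeries.trunc (b.natDegree + 1) α, ?_⟩
    ext n
    rw [show coeff n (io (PowerSeries.trunc (b.natDegree + 1) α)) =
      coeff n ((PowerSeries.trunc (b.natDegree + 1) α : F) : S) from rfl, Polynomial.coeff_coe,
      PowerSeries.coeff_trunc]
    split_ifs with h
    · rfl
    · have h1 := congrArg (coeff (B * n + (B + k0))) hb
      rw [PowerSeries.coeff_X_pow_mul] at h1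
      have h2 : coeff (B * n) (ex B hB0 α) = coeff n α := PowerSeries.coeff_expand_mul B hB0 α n
      rw [h2, show coeff (B * n + (B + k0)) (io b) = coeff (B * n + (B + k0)) (b : S) from rfl,
        Polynomial.coeff_coe] at h1
      rw [h1, Polynomial.coeff_eq_zero_of_natDegree_lt]
      have hBp : 0 < B := Nat.pos_of_ne_zero hB0
      nlinarith
  obtain ⟨d, rfl⟩ := hα2
  exact lin_gen G τ hG m i B M hB0 (fun j => ⟨e' j, he j⟩) hi hM h24 hexp c d hrel j0 hj0

theorem algOver_of_algX {D g : S} (h : AlgX g) : AlgOver D g := by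
  apply T5.algOver_of_mem
  exact QE2.cl_mono (by simp) (T5.mem_of_algX h)

/-- `LFor` after the substitution `X → X ^ B` -/
theorem lfor_ex {J : Type} [Fintype J] (h : J → S) (B : ℕ) (hB0 : B ≠ 0)
    (hh : ∀ j, AlgOver Db (ex B hB0 (h j))) : LFor h := by
  have hX : ex B hB0 X = X ^ B := PowerSeries.expand_X B hB0
  obtain ⟨C, hC⟩ := lf Pool.Agent.Y38.PT6.clo mtDb (fun j => ex B hB0 (h j)) hh
  refine ⟨C, fun k c d hc hd hne N hN => ?_⟩
  have h2 : ∑ j, io (Polynomial.expand (ZMod 2) B (c j)) *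
      ex B hB0 (h j) + io (Polynomial.expand (ZMod 2) B d) =
      ex B hB0 (∑ j, io (c j) * h j + io d) := by
    rw [map_add, map_sum, ex_io]
    congr 1
    refine Finset.sum_congr rfl fun j _ => ?_
    rw [map_mul, ex_io]
  have h3 := hC (B * k) (fun j => Polynomial.expand (ZMod 2) B (c j))
    (Polynomial.expand (ZMod 2) B d)
    (fun j => by rw [Polynomial.natDegree_expand, mul_comm]; exact Nat.mul_le_mul_left _ (hc j))
    (by rw [Polynomial.natDegree_expand, mul_comm]; exact Nat.mul_le_mul_left _ hd)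
    (by
      rw [h2]
      intro h4
      exact hne (ex_inj B hB0 (h4.trans (map_zero _).symm)))
    (B * N) (by
      rw [h2]
      obtain ⟨w, hw⟩ := hN
      refine ⟨ex B hB0 w, ?_⟩
      rw [pow_mul, ← hX, ← map_pow, ← map_mul]
      exact congrArg _ hw)
  have hBp : 0 < B := Nat.pos_of_ne_zero hB0
  have h5 : B * N ≤ B * (C * (k + 1)) := by
    refine h3.trans ?_
    have : C * (B * k + 1) ≤ C * (B * k + B) := Nat.mul_le_mul_left _ (by omega)
    refine this.trans (le_of_eq ?_)
    ring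
  exact Nat.le_of_mul_le_mul_left h5 hBp

/-- the pattern lemma, with a set of good indices -/
theorem pat' {J : Type} [Fintype J] (f : J → S) (good : J → Prop) (M : ℕ) (hM : 0 < M)
    (hLF : LFor (fun j : J × Fin M => proj M j.2 (f j.1)))
    (hLIN : ∀ (a : J × Fin M → F) (b : F),
      ∑ j : J × Fin M, io (a j) * proj M j.2 (f j.1) + io b = 0 →
      ∀ j : J × Fin M, good j.1 → proj M j.2 (f j.1) ≠ 0 → a j = 0) :
    ∃ C : ℕ, ∀ (L : ℕ) (c : J → Fin (L + 1) → ZMod 2) (ρ : ℕ),
      (∃ t i, good t ∧ c t i ≠ 0 ∧ proj M (ρ + i) (f t) ≠ 0) → ∀ (κ : ZMod 2) (A : ℕ),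
      ∃ n, A ≤ n ∧ n ≤ C * (A + L + 1) ∧ n % M = ρ % M ∧
        ∑ t, ∑ i : Fin (L + 1), c t i * coeff (n + i) (f t) = κ := by
  classical
  obtain ⟨C, hC⟩ := hLF
  refine ⟨C * (M + 1), fun L c ρ hc κ A => ?_⟩
  by_contra hcon
  push Not at hcon
  have h1 : ∀ a b : ZMod 2, a ≠ b → a = b + 1 := by decide
  set B := C * (M + 1) * (A + L + 1) with hB
  have hrun : ∀ n, A ≤ n → n ≤ B → n % M = ρ % M →
      ∑ t, ∑ i : Fin (L + 1), c t i * coeff (n + i) (f t) = κ + 1 :=
    fun n h2 h3 h4 => h1 _ _ (hcon n h2 h3 h4)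
  set a : J × Fin M → F := fun j => ∑ i : Fin (L + 1), if (ρ + i) % M = j.2 then
    Polynomial.C (c j.1 i) * Polynomial.X ^ (L - i) else 0 with ha
  set l0 : S := ∑ j : J × Fin M, io (a j) * proj M j.2 (f j.1) with hl0
  have hco : ∀ n, coeff (n + L) l0 = if n % M = ρ % M then
      ∑ t, ∑ i : Fin (L + 1), c t i * coeff (n + i) (f t) else 0 := by
    intro n
    have e1 : ∀ j : J × Fin M, coeff (n + L) (io (a j) * proj M j.2 (f j.1)) =
        ∑ i : Fin (L + 1), if (ρ + i) % M = j.2 then
          c j.1 i * coeff (n + i) (proj M j.2 (f j.1)) else 0 := by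
      intro j
      rw [ha]
      simp only [map_sum, Finset.sum_mul]
      refine Finset.sum_congr rfl fun i _ => ?_
      split_ifs with h2
      · have h4 : io (Polynomial.C (c j.1 i) * Polynomial.X ^ (L - (i : ℕ))) =
            algebraMap (ZMod 2) S (c j.1 i) * X ^ (L - (i : ℕ)) := by
          rw [map_mul, map_pow, QE2.io_X, QE2.io_C]
        have h3 : n + L = (n + i) + (L - i) := by have := i.2; omega
        rw [h4, mul_assoc, h3, ← Algebra.smul_def, map_smul, PowerSeries.coeff_X_pow_mul,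
          smul_eq_mul]
      · rw [map_zero, zero_mul, map_zero]
    rw [hl0, map_sum, Finset.sum_congr rfl fun j _ => e1 j, Fintype.sum_prod_type]
    have e2 : ∀ t : J, ∑ r : Fin M, ∑ i : Fin (L + 1), (if (ρ + i) % M = (r : ℕ) then
        c t i * coeff (n + i) (proj M r (f t)) else 0) =
        ∑ i : Fin (L + 1), if n % M = ρ % M then c t i * coeff (n + i) (f t) else 0 := by
      intro t
      rw [Finset.sum_comm]
      refine Finset.sum_congr rfl fun i _ => ?_
      have hlt : (ρ + i) % M < M := Nat.mod_lt _ hM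
      rw [Finset.sum_eq_single (⟨(ρ + i) % M, hlt⟩ : Fin M)]
      · rw [if_pos rfl]
        unfold proj
        rw [coeff_mk]
        simp only [Nat.mod_mod]
        by_cases h2 : n % M = ρ % M
        · have h3 : (n + (i : ℕ)) % M = (ρ + i) % M := Nat.ModEq.add_right _ h2
          rw [if_pos h2, if_pos h3]
        · have h3 : ¬ (n + (i : ℕ)) % M = (ρ + i) % M := fun h3 =>
            h2 (Nat.ModEq.add_right_cancel' _ h3)
          rw [if_neg h2, if_neg h3, mul_zero]
      · intro r _ hr
        rw [if_neg]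
        intro h2
        exact hr (Fin.ext h2.symm)
      · intro h2
        exact absurd (Finset.mem_univ _) h2
    rw [Finset.sum_congr rfl fun t _ => e2 t]
    split_ifs
    · rfl
    · simp
  set U : F := 1 + Polynomial.X ^ M with hU
  have hU0 : U ≠ 0 := by
    intro h0
    have h1 := congrArg (fun g : F => g.coeff 0) h0
    simp only [hU, Polynomial.coeff_add, Polynomial.coeff_one, Polynomial.coeff_X_pow, hM.ne,
      if_true, if_false, add_zero, Polynomial.coeff_zero] at h1
    exact one_ne_zero h1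
  have hUd : U.natDegree ≤ M := by
    refine (Polynomial.natDegree_add_le _ _).trans (max_le (by simp) ?_)
    exact (Polynomial.natDegree_X_pow_le M)
  set g : S := io U * l0 with hg
  set b : F := PowerSeries.trunc (A + M + L) g with hb
  set a' : J × Fin M → F := fun j => U * a j with ha'
  have hlam : ∑ j : J × Fin M, io (a' j) * proj M j.2 (f j.1) + io b = g + io b := by
    rw [hg, hl0, Finset.mul_sum]
    congr 1
    refine Finset.sum_congr rfl fun j _ => ?_
    rw [ha', map_mul, mul_assoc]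
  have had : ∀ j, (a j).natDegree ≤ L := by
    intro j
    refine Polynomial.natDegree_sum_le_of_forall_le _ _ fun i _ => ?_
    split_ifs
    · refine (Polynomial.natDegree_C_mul_X_pow_le _ _).trans (Nat.sub_le _ _)
    · simp
  have ha'd : ∀ j, (a' j).natDegree ≤ A + M + L := by
    intro j
    refine Polynomial.natDegree_mul_le.trans ?_
    have := had j
    omega
  have hbd : b.natDegree ≤ A + M + L := by
    obtain ⟨q, hq⟩ : ∃ q, A + M + L = q + 1 := ⟨A + M + L - 1, by omega⟩
    rw [hb, hq]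
    exact (PowerSeries.natDegree_trunc_lt g q).le
  have hne : ∑ j : J × Fin M, io (a' j) * proj M j.2 (f j.1) + io b ≠ 0 := by
    intro h0
    obtain ⟨t, i, hgd, hci, hpi⟩ := hc
    have hlt : (ρ + i) % M < M := Nat.mod_lt _ hM
    have hpe : proj M (ρ + i) (f t) = proj M ((ρ + i) % M) (f t) := by
      unfold proj
      simp only [Nat.mod_mod]
    have h2 := hLIN a' b h0 (t, ⟨(ρ + i) % M, hlt⟩) hgd (by
      rw [hpe] at hpi
      exact hpi)
    have h3 : a (t, ⟨(ρ + i) % M, hlt⟩) = 0 := (mul_eq_zero.1 h2).resolve_left hU0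
    have h4 := congrArg (fun q : F => q.coeff (L - i)) h3
    simp only [ha, Polynomial.finsetSum_coeff, Polynomial.coeff_zero] at h4
    rw [Finset.sum_eq_single i] at h4
    · rw [if_pos rfl, Polynomial.coeff_C_mul, Polynomial.coeff_X_pow, if_pos rfl, mul_one] at h4
      exact hci h4
    · intro i' _ hi'
      split_ifs
      · rw [Polynomial.coeff_C_mul, Polynomial.coeff_X_pow, if_neg, mul_zero]
        intro h5
        apply hi'
        have q1 := i.2
        have q2 := i'.2
        exact Fin.ext (by omega)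
      · rw [Polynomial.coeff_zero]
    · intro h5
      exact absurd (Finset.mem_univ _) h5
  have hdvd : (X : S) ^ (B + L + 1) ∣ ∑ j : J × Fin M, io (a' j) * proj M j.2 (f j.1) + io b := by
    rw [hlam, PowerSeries.X_pow_dvd_iff]
    intro m hm
    rw [map_add, show coeff m (io b) = coeff m (b : S) from rfl, Polynomial.coeff_coe, hb,
      PowerSeries.coeff_trunc]
    split_ifs with h2
    · exact (by decide : ∀ a : ZMod 2, a + a = 0) _
    · rw [add_zero]
      obtain ⟨n, rfl⟩ : ∃ n, m = n + M + L := ⟨m - M - L, by omega⟩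
      have e : g = l0 + X ^ M * l0 := by
        rw [hg, hU, map_add, map_one, map_pow, QE2.io_X]
        ring
      have e3 : n + M + L = (n + L) + M := by ring
      rw [e, map_add]
      conv_lhs =>
        congr
        · rw [hco]
        · rw [e3, PowerSeries.coeff_X_pow_mul, hco]
      rw [Nat.add_mod_right]
      split_ifs with h5
      · rw [hrun n (by omega) (by omega) h5, hrun (n + M) (by omega) (by omega)
          (by rw [Nat.add_mod_right]; exact h5)]
        exact (by decide : ∀ a : ZMod 2, a + a = 0) _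
      · rw [add_zero]
  have h3 := hC (A + M + L) a' b ha'd hbd hne _ hdvd
  have h4 : C * (A + M + L + 1) ≤ C * (M + 1) * (A + L + 1) := by
    rw [mul_assoc]
    refine Nat.mul_le_mul_left _ ?_
    nlinarith [Nat.zero_le (M * A), Nat.zero_le (M * L)]
  omega

end Pool.Agent.Q36.AU
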